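import Pool.Agent.Y377.ST.Stm

/-!
A ring homomorphism from sequences of complex numbers to complex numbers which kills the sequences
with finitely many nonzero terms.
-/

set_option autoImplicit false

open Cardinal

namespace Pool.Agent.Y455.ST

open Pool.Agent.Y377.ST

/-- the ideal of the sequences with finitely many nonzero terms -/
def J : Ideal (ℕ → ℂ) where
  carrier := {f | ∃ n, ∀ i, n ≤ i → f i = 0}
  add_mem' := by
    rintro f g ⟨n, hn⟩ ⟨n', hn'⟩
    refine ⟨max n n', fun i hi => ?_⟩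
    rw [Pi.add_apply, hn i ((le_max_left _ _).trans hi), hn' i ((le_max_right _ _).trans hi),
      add_zero]
  zero_mem' := ⟨0, fun i _ => rfl⟩
  smul_mem' := by
    rintro c f ⟨n, hn⟩
    refine ⟨n, fun i hi => ?_⟩
    rw [smul_eq_mul, Pi.mul_apply, hn i hi, mul_zero]

theorem J_ne : J ≠ ⊤ := by
  rw [Ideal.ne_top_iff_one]
  rintro ⟨n, hn⟩
  exact one_ne_zero (hn n le_rfl)

theorem card_seq : #(ℕ → ℂ) = 𝔠 := by
  rw [← Cardinal.power_def, Cardinal.mk_complex, Cardinal.mk_nat, Cardinal.continuum_power_aleph0]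

/-- THETA -/
theorem t_THETA : S_THETA := by
  classical
  obtain ⟨m, hm, hJm⟩ := Ideal.exists_le_maximal J J_ne
  let _ : Field ((ℕ → ℂ) ⧸ m) := Ideal.Quotient.field m
  have hinj : Function.Injective (algebraMap ℂ ((ℕ → ℂ) ⧸ m)) :=
    (algebraMap ℂ ((ℕ → ℂ) ⧸ m)).injective
  have hchar : CharZero ((ℕ → ℂ) ⧸ m) := charZero_of_injective_algebraMap hinj
  have hQ : #((ℕ → ℂ) ⧸ m) = 𝔠 := by
    refine le_antisymm ?_ ?_
    · rw [← card_seq]
      exact Cardinal.mk_le_of_surjective (Ideal.Quotient.mk_surjective (I := m))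
    · rw [← Cardinal.mk_complex]
      exact Cardinal.mk_le_of_injective hinj
  have hinj2 : Function.Injective (algebraMap ((ℕ → ℂ) ⧸ m) (AlgebraicClosure ((ℕ → ℂ) ⧸ m))) :=
    (algebraMap ((ℕ → ℂ) ⧸ m) (AlgebraicClosure ((ℕ → ℂ) ⧸ m))).injective
  have hA : #(AlgebraicClosure ((ℕ → ℂ) ⧸ m)) = 𝔠 := by
    refine le_antisymm ?_ ?_
    · refine (Algebra.IsAlgebraic.cardinalMk_le_max ((ℕ → ℂ) ⧸ m) _).trans ?_
      rw [hQ]
      exact max_le le_rfl Cardinal.aleph0_le_continuum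
    · rw [← hQ]
      exact Cardinal.mk_le_of_injective hinj2
  obtain ⟨φ⟩ := IsAlgClosed.ringEquiv_of_equiv_of_charZero
    (K := AlgebraicClosure ((ℕ → ℂ) ⧸ m)) (L := ℂ) (by rw [hA]; exact Cardinal.aleph0_lt_continuum)
    (Cardinal.eq.1 (by rw [hA, Cardinal.mk_complex]))
  refine ⟨(φ : AlgebraicClosure ((ℕ → ℂ) ⧸ m) →+* ℂ).comp
    ((algebraMap ((ℕ → ℂ) ⧸ m) (AlgebraicClosure ((ℕ → ℂ) ⧸ m))).comp (Ideal.Quotient.mk m)),
    fun f hf => ?_⟩
  have h1 : Ideal.Quotient.mk m f = 0 := Ideal.Quotient.eq_zero_iff_mem.2 (hJm hf)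
  rw [RingHom.comp_apply, RingHom.comp_apply, h1, map_zero, map_zero]

end Pool.Agent.Y455.ST
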